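import Pool.Agent.R870.RZ.Growth
import Pool.Agent.R870.RZ.Defs
import Pool.Agent.R870.NY.Gen

/-!
# Growth of the polynomial functions on a variety and on a product
-/

set_option autoImplicit false

namespace Pool.Agent.R870.NT

open MvPolynomial
open Pool.Agent.H364R2 (box mem_box finrank_box box_mono mul_mem_box exists_mem_box)
open Pool.Agent.R870.RZ (InFil bx idealOf mem_idealOf dim)
open Pool.Agent.R870.NY (P Growth)

section field

variable {Ω : Type} [Field Ω] [Algebra ℂ Ω]

/-- Growth: the number of linearly independent monomials of degrees at most `L` in elements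
of a field of transcendence degree at most `d` is at most `C L ^ d`. -/
theorem growth_poly {n : ℕ} (x : Fin n → Ω) (d : ℕ)
    (hd : Algebra.trdeg ℂ Ω ≤ d) :
    ∃ C : ℕ, 1 ≤ C ∧ ∀ L : ℕ, 1 ≤ L → ∀ (ι : Type) [Fintype ι] (e : ι → Fin n → ℕ),
      (∀ a l, e a l ≤ L) → LinearIndependent ℂ (fun a => ∏ l, x l ^ e a l) →
        Fintype.card ι ≤ C * L ^ d := by
  classical
  let G : Set Ω := Set.range x
  have hG : G.Finite := Set.finite_range _
  let A : Subalgebra ℂ Ω := Algebra.adjoin ℂ G
  have hft : Algebra.FiniteType ℂ A :=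
    A.fg_iff_finiteType.1 (Subalgebra.fg_def.2 ⟨G, hG, rfl⟩)
  obtain ⟨s, g, hg, hfin⟩ := exists_finite_inj_algHom_of_fg ℂ A
  have hind : AlgebraicIndependent ℂ (fun i : Fin s => ((g (X i) : A) : Ω)) := by
    have h1 : (aeval (fun i : Fin s => ((g (X i) : A) : Ω)) :
        MvPolynomial (Fin s) ℂ →ₐ[ℂ] Ω) = A.val.comp g := by
      ext i
      simp
    rw [AlgebraicIndependent, h1]
    exact Subtype.val_injective.comp hg
  have hsd : s ≤ d := by
    have h1 := hind.cardinalMk_le_trdeg
    rw [Cardinal.mk_fin] at h1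
    exact_mod_cast h1.trans hd
  -- module generators
  let _ : Algebra (MvPolynomial (Fin s) ℂ) A := g.toRingHom.toAlgebra
  have hmf : Module.Finite (MvPolynomial (Fin s) ℂ) A := hfin
  obtain ⟨m, b, hb⟩ := Module.Finite.exists_fin (R := MvPolynomial (Fin s) ℂ) (M := A)
  let g' : MvPolynomial (Fin s) ℂ →ₐ[ℂ] Ω := A.val.comp g
  let b' : Fin m → Ω := fun l => (b l : Ω)
  have hrep : ∀ y : A, ∃ P : Fin m → MvPolynomial (Fin s) ℂ, (y : Ω) = ∑ l, g' (P l) * b' l := by
    intro y
    have h1 : y ∈ Submodule.span (MvPolynomial (Fin s) ℂ) (Set.range b) := by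
      rw [hb]; exact Submodule.mem_top
    obtain ⟨P, hP⟩ := (Submodule.mem_span_range_iff_exists_fun _).1 h1
    refine ⟨P, ?_⟩
    rw [← hP]
    have h2 : ∀ l, P l • b l = g (P l) * b l := fun l => Algebra.smul_def _ _
    simp only [h2]
    rw [AddSubmonoidClass.coe_finsetSum]
    rfl
  have hfil : ∀ y : A, ∃ N, InFil g' b' N (y : Ω) := by
    intro y
    obtain ⟨P, hP⟩ := hrep y
    choose N hN1 hN2 using fun l => exists_mem_box ℂ (fun _ : Fin s => 1) (fun _ => le_rfl) (P l)
    refine ⟨∑ l, N l, P, fun l => box_mono ℂ _ ?_ (hN2 l), hP⟩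
    exact Finset.single_le_sum (f := N) (fun _ _ => Nat.zero_le _) (Finset.mem_univ l)
  have hxA : ∀ j, x j ∈ A := fun j => Algebra.subset_adjoin ⟨j, rfl⟩
  choose N1 hN1 using fun p : Fin n × Fin m => hfil (⟨x p.1, hxA p.1⟩ * b p.2)
  obtain ⟨N3, hN3⟩ := hfil 1
  let δ : ℕ := ∑ p, N1 p + N3
  have hd1 : ∀ j l, InFil g' b' δ (x j * b' l) := by
    intro j l
    refine InFil.mono ?_ (hN1 (j, l))
    have := Finset.single_le_sum (f := N1) (fun _ _ => Nat.zero_le _) (Finset.mem_univ (j, l))
    omega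
  have hd3 : InFil g' b' δ 1 := InFil.mono (by omega) hN3
  refine ⟨(m + 1) * (δ * (1 + n) + 1) ^ d, Nat.mul_pos (by omega) (pow_pos (by omega) _),
    fun L hL ι _ e he hli => ?_⟩
  have hmon : ∀ a, InFil g' b' (δ * (1 + n * L)) (∏ l, x l ^ e a l) := by
    intro a
    have key : ∀ S : Finset (Fin n), InFil g' b' (δ + ∑ l ∈ S, e a l * δ)
        ((∏ l ∈ S, x l ^ e a l) * 1) := by
      intro S
      induction S using Finset.induction_on with
      | empty => simpa using hd3
      | insert j S hj ih =>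
        rw [Finset.prod_insert hj, Finset.sum_insert hj, mul_assoc,
          show δ + (e a j * δ + ∑ l ∈ S, e a l * δ) =
            δ + ∑ l ∈ S, e a l * δ + e a j * δ by ring]
        exact InFil.pow (hd1 j) ih _
    have h1 := key Finset.univ
    rw [mul_one] at h1
    refine InFil.mono ?_ h1
    have h2 : ∑ l, e a l * δ ≤ ∑ _l : Fin n, L * δ :=
      Finset.sum_le_sum fun l _ => Nat.mul_le_mul_right _ (he a l)
    rw [Finset.sum_const, Finset.card_univ, Fintype.card_fin, smul_eq_mul] at h2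
    calc δ + ∑ l, e a l * δ ≤ δ + n * (L * δ) := by omega
      _ = δ * (1 + n * L) := by ring
  have h1 := InFil.card_le _ hmon hli
  refine h1.trans ?_
  have h2 : (δ * (1 + n * L) + 1) ^ s ≤ ((δ * (1 + n) + 1) * L) ^ s := by
    refine Nat.pow_le_pow_left ?_ _
    nlinarith [Nat.zero_le δ, Nat.zero_le (δ * n)]
  have h3 : ((δ * (1 + n) + 1) * L) ^ s ≤ ((δ * (1 + n) + 1) * L) ^ d :=
    Nat.pow_le_pow_right (Nat.mul_pos (by omega) hL) hsd
  calc m * (δ * (1 + n * L) + 1) ^ s ≤ (m + 1) * ((δ * (1 + n) + 1) * L) ^ d :=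
        Nat.mul_le_mul (by omega) (h2.trans h3)
    _ = _ := by rw [mul_pow]; ring

end field

theorem P_le_span {s : ℕ} {T : Type} (x : Fin s → T → ℂ) (L : ℕ) :
    P x L ≤ Submodule.span ℂ (Set.range fun e : Fin s → Fin (L + 1) => ∏ l, x l ^ (e l : ℕ)) := by
  refine Submodule.span_le.2 ?_
  rintro f ⟨e, he, rfl⟩
  exact Submodule.subset_span ⟨fun l => ⟨e l, Nat.lt_succ_of_le (he l)⟩, rfl⟩

theorem P_finite {s : ℕ} {T : Type} (x : Fin s → T → ℂ) (L : ℕ) : Module.Finite ℂ (P x L) := by
  have h : Module.Finite ℂ (Submodule.span ℂ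
      (Set.range fun e : Fin s → Fin (L + 1) => ∏ l, x l ^ (e l : ℕ))) :=
    FiniteDimensional.span_of_finite ℂ (Set.finite_range _)
  exact Submodule.finiteDimensional_of_le (P_le_span x L)

/-- Growth of the functions on an irreducible set. -/
theorem growth_V {s : ℕ} (V : Set (Fin s → ℂ)) (hVp : (idealOf V).IsPrime) (d : ℕ)
    (hd : dim V ≤ d) : ∃ C : ℕ, 1 ≤ C ∧ Growth (fun l (y : V) => y.1 l) C d := by
  classical
  let R := MvPolynomial (Fin s) ℂ ⧸ idealOf V
  have : IsDomain R := Ideal.Quotient.isDomain _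
  let Ω := FractionRing R
  let ev : MvPolynomial (Fin s) ℂ →ₐ[ℂ] Ω :=
    (IsScalarTower.toAlgHom ℂ R Ω).comp (Ideal.Quotient.mkₐ ℂ (idealOf V))
  have hev : ∀ f, ev f = 0 ↔ f ∈ idealOf V := by
    intro f
    change algebraMap R Ω (Ideal.Quotient.mk (idealOf V) f) = 0 ↔ _
    rw [← Ideal.Quotient.eq_zero_iff_mem]
    exact map_eq_zero_iff _ (IsFractionRing.injective R Ω)
  let x : Fin s → Ω := fun j => ev (X j)
  have htr : Algebra.trdeg ℂ Ω ≤ d := by
    refine le_trans ?_ hd
    have halg : Algebra.IsAlgebraic (Algebra.adjoin ℂ (Set.range x)) Ω := by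
      have hadj : ∀ p : R, algebraMap R Ω p ∈ Algebra.adjoin ℂ (Set.range x) := by
        intro p
        obtain ⟨f, rfl⟩ := Ideal.Quotient.mk_surjective p
        rw [Algebra.adjoin_range_eq_range_aeval]
        refine ⟨f, ?_⟩
        have h2 : (aeval x : MvPolynomial (Fin s) ℂ →ₐ[ℂ] Ω) = ev := by
          ext i
          rw [aeval_X]
        exact DFunLike.congr_fun h2 f
      refine ⟨fun ω => ?_⟩
      obtain ⟨p, q, hq, rfl⟩ := IsFractionRing.div_surjective (A := R) ω
      rw [div_eq_mul_inv]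
      have hp' : IsAlgebraic (Algebra.adjoin ℂ (Set.range x)) (algebraMap R Ω p) :=
        isAlgebraic_algebraMap (⟨_, hadj p⟩ : Algebra.adjoin ℂ (Set.range x))
      have hq' : IsAlgebraic (Algebra.adjoin ℂ (Set.range x)) (algebraMap R Ω q) :=
        isAlgebraic_algebraMap (⟨_, hadj q⟩ : Algebra.adjoin ℂ (Set.range x))
      exact hp'.mul hq'.inv
    obtain ⟨t, hts, ht⟩ := exists_isTranscendenceBasis_subset (R := ℂ) (Set.range x)
    rw [← ht.cardinalMk_eq_trdeg]
    have hc : ∀ e : t, ∃ j, x j = e := fun e => hts e.2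
    choose c hc using hc
    have hinj : Function.Injective (IsScalarTower.toAlgHom ℂ R Ω) := IsFractionRing.injective R Ω
    have h3 : AlgebraicIndependent ℂ
        (fun e : t => (Ideal.Quotient.mk (idealOf V) (X (c e)) : R)) := by
      rw [← AlgHom.algebraicIndependent_iff _ hinj]
      have h4 : (IsScalarTower.toAlgHom ℂ R Ω) ∘
          (fun e : t => (Ideal.Quotient.mk (idealOf V) (X (c e)) : R)) =
          fun e : t => (e : Ω) := by
        funext e
        exact hc e
      rw [h4]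
      exact ht.1
    exact h3.cardinalMk_le_trdeg
  obtain ⟨K, hK1, hK⟩ := growth_poly x d htr
  refine ⟨K, hK1, fun L hL => ?_⟩
  obtain ⟨xx, hxx⟩ : ∃ xx : Fin s → V → ℂ, xx = fun l (y : V) => y.1 l := ⟨_, rfl⟩
  rw [← hxx]
  let F : (Fin s → Fin (L + 1)) → V → ℂ := fun e => ∏ l, xx l ^ (e l : ℕ)
  obtain ⟨b, hb1, hb2, hb3⟩ := exists_linearIndependent ℂ (Set.range F)
  have hbfin : b.Finite := (Set.finite_range F).subset hb1
  have : Fintype b := hbfin.fintype
  choose e he using fun a : b => hb1 a.2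
  have hli : LinearIndependent ℂ (fun a : b => ∏ l, x l ^ (e a l : ℕ)) := by
    rw [Fintype.linearIndependent_iff] at hb3 ⊢
    intro c hc
    apply hb3
    have h1 : ev (∑ a : b, C (c a) * ∏ l, X l ^ (e a l : ℕ)) = 0 := by
      rw [map_sum, ← hc]
      refine Finset.sum_congr rfl fun a _ => ?_
      rw [map_mul, map_prod, Algebra.smul_def]
      have h2 : ev (C (c a)) = algebraMap ℂ Ω (c a) := by
        rw [← algebraMap_eq]
        exact ev.commutes (c a)
      rw [h2]
      congr 1
      exact Finset.prod_congr rfl fun l _ => map_pow _ _ _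
    have h2 := mem_idealOf.1 ((hev _).1 h1)
    funext y
    have h3 := h2 y.1 y.2
    rw [map_sum] at h3
    rw [Finset.sum_apply, Pi.zero_apply, ← h3]
    refine Finset.sum_congr rfl fun a _ => ?_
    rw [map_mul, map_prod, eval_C, Pi.smul_apply, smul_eq_mul, ← he a]
    congr 1
    change (∏ l, xx l ^ (e a l : ℕ)) y = _
    rw [Finset.prod_apply]
    refine Finset.prod_congr rfl fun l _ => ?_
    rw [map_pow, eval_X, hxx]
    rfl
  have hcard := hK L hL b (fun a l => (e a l : ℕ)) (fun a l => Nat.lt_succ_iff.1 (e a l).2) hli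
  refine ⟨P_finite _ _, ?_⟩
  have hfin : Module.Finite ℂ (Submodule.span ℂ b) := FiniteDimensional.span_of_finite ℂ hbfin
  have hP : P xx L ≤ Submodule.span ℂ b := by
    rw [hb2]
    exact P_le_span xx L
  refine (Submodule.finrank_mono hP).trans (le_trans ?_ hcard)
  have := finrank_span_le_card (R := ℂ) b
  rwa [Set.toFinset_card] at this

/-- Growth of the functions on a product. -/
theorem growth_prod {s n : ℕ} {T U : Type} {x : Fin s → T → ℂ} {y : Fin n → U → ℂ} {B B' m m' : ℕ}
    (hx : Growth x B m) (hy : Growth y B' m') :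
    Growth (Fin.append (fun l (p : T × U) => x l p.1) (fun i (p : T × U) => y i p.2))
      (B * B') (m + m') := by
  classical
  intro L hL
  refine ⟨P_finite _ _, ?_⟩
  obtain ⟨h1, h2⟩ := hx L hL
  obtain ⟨h3, h4⟩ := hy L hL
  let b := Module.finBasis ℂ (P x L)
  let b' := Module.finBasis ℂ (P y L)
  let F : Fin (Module.finrank ℂ (P x L)) × Fin (Module.finrank ℂ (P y L)) → (T × U) → ℂ :=
    fun q p => (b q.1).1 p.1 * (b' q.2).1 p.2
  have hP : P (Fin.append (fun l (p : T × U) => x l p.1) (fun i (p : T × U) => y i p.2)) L ≤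
      Submodule.span ℂ (Set.range F) := by
    refine Submodule.span_le.2 ?_
    rintro f ⟨e, he, rfl⟩
    have hf : (∏ l, x l ^ e (Fin.castAdd n l)) ∈ P x L :=
      Pool.Agent.R870.NY.mon_mem_P fun l => he _
    have hg : (∏ i, y i ^ e (Fin.natAdd s i)) ∈ P y L :=
      Pool.Agent.R870.NY.mon_mem_P fun l => he _
    have hf' := congrArg Subtype.val (b.sum_repr ⟨_, hf⟩)
    have hg' := congrArg Subtype.val (b'.sum_repr ⟨_, hg⟩)
    rw [AddSubmonoidClass.coe_finsetSum] at hf' hg'
    have h5 : (∏ l, (Fin.append (fun l (p : T × U) => x l p.1)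
        (fun i (p : T × U) => y i p.2)) l ^ e l) =
        ∑ q, (b.repr ⟨_, hf⟩ q.1 * b'.repr ⟨_, hg⟩ q.2) • F q := by
      funext p
      rw [Fin.prod_univ_add, Fintype.sum_prod_type]
      simp only [Fin.append_left, Fin.append_right, Finset.sum_apply, Pi.mul_apply,
        Finset.prod_apply, Pi.pow_apply, Pi.smul_apply, smul_eq_mul, F]
      have h6 := congrFun hf' p.1
      have h7 := congrFun hg' p.2
      simp only [Finset.sum_apply, Finset.prod_apply, Pi.pow_apply, Submodule.coe_smul,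
        Pi.smul_apply, smul_eq_mul] at h6 h7
      rw [← h6, ← h7, Finset.sum_mul_sum]
      refine Finset.sum_congr rfl fun i _ => Finset.sum_congr rfl fun j _ => ?_
      ring
    rw [SetLike.mem_coe, h5]
    exact Submodule.sum_mem _ fun q _ => Submodule.smul_mem _ _ (Submodule.subset_span ⟨q, rfl⟩)
  have hfin : Module.Finite ℂ (Submodule.span ℂ (Set.range F)) :=
    FiniteDimensional.span_of_finite ℂ (Set.finite_range F)
  refine (Submodule.finrank_mono hP).trans ((finrank_range_le_card F).trans ?_)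
  rw [Fintype.card_prod, Fintype.card_fin, Fintype.card_fin]
  calc _ ≤ (B * L ^ m) * (B' * L ^ m') := Nat.mul_le_mul h2 h4
    _ = _ := by rw [pow_add]; ring

end Pool.Agent.R870.NT
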