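import Pool.Agent.R870.NT.Growth
import Pool.Agent.R870.NY.Main

/-!
# Translates of polynomial maps `V → Y(1)^n`: the parameters with atypical intersections lie on a
hypersurface of small degree
-/

set_option autoImplicit false

namespace Pool.Agent.R870.NT

open MvPolynomial UpperHalfPlane H294ZP
open Pool.Agent.R870.RZ (idealOf mem_idealOf dim exists_J)
open Pool.Agent.R870.NY

variable {s n : ℕ}

/-- The point `F(x) + g`. -/
noncomputable def pt (F : Fin n → MvPolynomial (Fin s) ℂ) (g : Fin n → ℂ) (x : Fin s → ℂ) :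
    Fin n → ℂ := fun i => eval x (F i) + g i

/-- The equation for one set. -/
theorem exists_q (V : Set (Fin s → ℂ)) {d B : ℕ} (hB : 1 ≤ B)
    (hV : Growth (fun l (y : V) => y.1 l) B d) (F : Fin n → MvPolynomial (Fin s) ℂ) (e : ℕ)
    (he : ∀ i, (F i).totalDegree ≤ e) (Z : Set (Fin n → ℂ)) {B' r : ℕ} (hB' : 1 ≤ B')
    (hZ : Growth (fun l (y : Z) => y.1 l) B' r) (J : Finset (Fin s))
    (hJ : d + r + 1 ≤ n + J.card) :
    ∃ q : MvPolynomial (Fin n) ℂ, q ≠ 0 ∧
      q.totalDegree ≤ n * DD (B * B') (s + n) n (e + 1) (d + r) ∧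
      ∀ (g : Fin n → ℂ) (W : Set (Fin s → ℂ)), W ⊆ V → (∀ x ∈ W, pt F g x ∈ Z) → Indep J W →
        eval g q = 0 := by
  classical
  obtain ⟨xx, hxx⟩ : ∃ xx : Fin (s + n) → (V × Z) → ℂ, xx =
      Fin.append (fun l (p : V × Z) => p.1.1 l) (fun i (p : V × Z) => p.2.1 i) := ⟨_, rfl⟩
  have hgr : Growth xx (B * B') (d + r) := by
    have h1 := growth_prod (T := V) (U := Z) (x := fun l (y : V) => y.1 l)
      (y := fun i (y : Z) => y.1 i) hV hZ
    rw [hxx]
    exact h1
  have hx1 : ∀ l, xx (Fin.castAdd n l) = fun p : V × Z => p.1.1 l := by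
    intro l
    rw [hxx, Fin.append_left]
  have hx2 : ∀ i, xx (Fin.natAdd s i) = fun p : V × Z => p.2.1 i := by
    intro i
    rw [hxx, Fin.append_right]
  let g : Fin n → (V × Z) → ℂ := fun i p => p.2.1 i - eval p.1.1 (F i)
  have hg : ∀ i, g i ∈ P xx (e + 1) := by
    intro i
    have h1 : g i = xx (Fin.natAdd s i) - ∑ m ∈ (F i).support,
        (coeff m (F i)) • ∏ l, xx (Fin.castAdd n l) ^ m l := by
      funext p
      rw [hx2]
      simp only [g, Pi.sub_apply, Finset.sum_apply, Pi.smul_apply, smul_eq_mul, Finset.prod_apply,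
        Pi.pow_apply, hx1]
      rw [eval_eq]
      congr 1
      refine Finset.sum_congr rfl fun m _ => ?_
      congr 1
      exact Finset.prod_subset (Finset.subset_univ _) fun l _ hl => by
        rw [Finsupp.notMem_support_iff.1 hl, pow_zero]
    rw [h1]
    refine Submodule.sub_mem _ (X_mem_P _ (by omega)) (Submodule.sum_mem _ fun m hm =>
      Submodule.smul_mem _ _ ?_)
    have h2 := P_prod (x := xx) Finset.univ (fun l : Fin s => xx (Fin.castAdd n l) ^ m l)
      (fun l => m l * 1) fun l _ => P_pow (X_mem_P _ le_rfl) _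
    refine P_mono ?_ h2
    have h3 := le_totalDegree hm
    rw [Finsupp.sum_fintype _ _ fun _ => rfl] at h3
    simp only [mul_one]
    exact h3.trans ((he i).trans (by omega))
  let J' : Finset (Fin (s + n)) := J.map (Fin.castAddEmb n)
  have hJ' : J'.card = J.card := Finset.card_map _
  obtain ⟨q, hq0, hqd, hq⟩ := exists_poly (Nat.mul_pos hB hB') hgr g hg J' (by omega)
  refine ⟨q, hq0, hqd, fun γ W hWV hWZ hWJ => ?_⟩
  refine hq {p : V × Z | p.1.1 ∈ W ∧ p.2.1 = pt F γ p.1.1} γ ?_ ?_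
  · rintro p ⟨_, hp⟩ i
    simp only [g]
    rw [hp, pt]
    ring
  · intro R hR
    have hex : ∀ j : J', ∃ j0 : J, Fin.castAdd n (j0 : Fin s) = (j : Fin (s + n)) := by
      intro j
      obtain ⟨j0, hj0, h⟩ := Finset.mem_map.1 j.2
      exact ⟨⟨j0, hj0⟩, h⟩
    choose ψ hψ using hex
    have hinj : Function.Injective ψ := by
      intro j j' h
      apply Subtype.ext
      rw [← hψ j, ← hψ j', h]
    have h1 : rename ψ R = 0 := by
      refine hWJ _ fun x hx => ?_
      rw [eval_rename]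
      have h2 := hR (⟨x, hWV hx⟩, ⟨pt F γ x, hWZ x hx⟩) ⟨hx, rfl⟩
      rw [← h2]
      congr 2
      funext j
      rw [Function.comp_apply, ← hψ j, hx1]
    exact rename_injective ψ hinj (by rw [h1, map_zero])

/-- The constant in the theorem. -/
def CT (s n d e B : ℕ) : ℕ := (n + 1) * ((n + 1) ^ n * ((n + 1) ^ n * 2 ^ s)) *
    (n * ((B * ((n + 1) ^ n * 2 ^ n)) * (n * (e + 1) + (s + n) + 1) ^ (d + n)))

theorem main (V : Set (Fin s → ℂ)) (hVp : (idealOf V).IsPrime) (d : ℕ) (hd : dim V ≤ d)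
    (n e : ℕ) :
    ∃ C : ℕ, ∀ F : Fin n → MvPolynomial (Fin s) ℂ, (∀ i, (F i).totalDegree ≤ e) →
      ∀ Δ : ℕ, 1 ≤ Δ → ∀ G : Finset ℂ, ∃ Q : MvPolynomial (Fin n) ℂ, Q ≠ 0 ∧
        Q.totalDegree ≤ C * (G.card + 1) ^ n * Δ ^ (14 * n) ∧
        ∀ g : Fin n → ℂ, eval g Q ≠ 0 → ∀ (r : ℕ) (Z : Special n r), (∀ i, (Z.mat i).det ≤ Δ) →
          (∀ i, Z.cls i = none → Z.const i ∈ G) → ∀ W : Set (Fin s → ℂ),
          W ⊆ V → (∀ x ∈ W, pt F g x ∈ Z.locus) → (idealOf W).IsPrime →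
            dim W + (n : Cardinal) ≤ (d : Cardinal) + (r : Cardinal) := by
  classical
  obtain ⟨Φ, hΦ⟩ := exists_Phi
  obtain ⟨B, hB1, hB⟩ := growth_V V hVp d hd
  refine ⟨CT s n d e B, fun F hF Δ hΔ G => ?_⟩
  let S : (r : ℕ) → Finset ((Fin n → Option (Fin r)) × (Fin r → Fin n) × (Fin n → ℕ) ×
      (Fin n → ℂ) × Finset (Fin s)) := fun r =>
    Finset.univ ×ˢ Finset.univ ×ˢ (Fintype.piFinset fun _ => Finset.Icc 1 (Δ ^ 2)) ×ˢ
      (Fintype.piFinset fun _ => insert 0 G) ×ˢ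
        (Finset.univ.filter fun J : Finset (Fin s) => d + r + 1 ≤ n + J.card)
  obtain ⟨q, hq⟩ : ∃ q, q = (n + 1) ^ n * ((n + 1) ^ n * ((Δ ^ 2) ^ n * ((G.card + 1) ^ n *
      2 ^ s))) := ⟨_, rfl⟩
  have hS : ∀ r, r ≤ n → (S r).card ≤ q := by
    intro r hr
    simp only [S, Finset.card_product, Finset.card_univ, Fintype.card_fun, Fintype.card_option,
      Fintype.card_fin, Fintype.card_piFinset, Finset.prod_const]
    rw [hq]
    refine Nat.mul_le_mul (Nat.pow_le_pow_left (by omega) n) (Nat.mul_le_mul ?_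
      (Nat.mul_le_mul ?_ (Nat.mul_le_mul (Nat.pow_le_pow_left (Finset.card_insert_le _ _) n) ?_)))
    · exact (Nat.pow_le_pow_left (by omega) r).trans (Nat.pow_le_pow_right (by omega) hr)
    · rw [Nat.card_Icc, Nat.add_sub_cancel]
    · refine (Finset.card_filter_le _ _).trans ?_
      simp
  obtain ⟨M, hM⟩ : ∃ M, M = n * ((B * ((n + 1) ^ n * 2 ^ n) * Δ ^ (12 * n)) *
    (n * (e + 1) + (s + n) + 1) ^ (d + n)) := ⟨_, rfl⟩
  have hex : ∀ (r : ℕ) (p : (Fin n → Option (Fin r)) × (Fin r → Fin n) × (Fin n → ℕ) ×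
      (Fin n → ℂ) × Finset (Fin s)), ∃ Q : MvPolynomial (Fin n) ℂ, Q ≠ 0 ∧
      (r ≤ n → p ∈ S r → Q.totalDegree ≤ M ∧ ∀ (g : Fin n → ℂ) (W : Set (Fin s → ℂ)), W ⊆ V →
        (∀ x ∈ W, pt F g x ∈ Zset Φ p.1 p.2.1 p.2.2.1 p.2.2.2.1) → Indep p.2.2.2.2 W →
          eval g Q = 0) := by
    intro r p
    by_cases hp : r ≤ n ∧ p ∈ S r
    · obtain ⟨hr, hp⟩ := hp
      have hp' := hp
      simp only [S, Finset.mem_product, Finset.mem_univ, true_and, Fintype.mem_piFinset,
        Finset.mem_filter] at hp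
      obtain ⟨hp1, hp2, hp3⟩ := hp
      obtain ⟨Q, hQ0, hQd, hQ⟩ := exists_q V hB1 hB F e hF
        (Zset Φ p.1 p.2.1 p.2.2.1 p.2.2.2.1)
        (BB_pos (Nat.one_le_pow _ _ hΔ))
        (growth_Zset hΦ p.1 p.2.1 p.2.2.1 p.2.2.2.1 Δ (fun i => Finset.mem_Icc.1 (hp1 i)) hΔ)
        p.2.2.2.2 hp3
      refine ⟨Q, hQ0, fun _ _ => ⟨hQd.trans ?_, hQ⟩⟩
      rw [hM]
      refine Nat.mul_le_mul_left _ ?_
      rw [DD]
      have h3 := BB_le (δ := Δ ^ 6) hr (Nat.one_le_pow _ _ hΔ)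
      rw [← pow_mul] at h3
      refine Nat.mul_le_mul ?_ (Nat.pow_le_pow_right (by omega) (by omega))
      calc B * BB n r (Δ ^ 6) ≤ B * ((n + 1) ^ n * 2 ^ n * Δ ^ (6 * (2 * n))) :=
            Nat.mul_le_mul_left _ h3
        _ = _ := by rw [show 6 * (2 * n) = 12 * n by ring]; ring
    · exact ⟨1, one_ne_zero, fun h1 h2 => absurd ⟨h1, h2⟩ hp⟩
  choose Q hQ0 hQ using hex
  let QQ : MvPolynomial (Fin n) ℂ := ∏ r ∈ Finset.range (n + 1), ∏ p ∈ S r, Q r p
  refine ⟨QQ, ?_, ?_, ?_⟩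
  · exact Finset.prod_ne_zero_iff.2 fun r _ => Finset.prod_ne_zero_iff.2 fun p _ => hQ0 r p
  · have h1 : QQ.totalDegree ≤ ∑ r ∈ Finset.range (n + 1), ∑ p ∈ S r, (Q r p).totalDegree :=
      (totalDegree_finsetProd _ _).trans
        (Finset.sum_le_sum fun r _ => totalDegree_finsetProd _ _)
    have h2 : QQ.totalDegree ≤ (n + 1) * (q * M) := by
      refine h1.trans ?_
      calc ∑ r ∈ Finset.range (n + 1), ∑ p ∈ S r, (Q r p).totalDegree
          ≤ ∑ r ∈ Finset.range (n + 1), ∑ _p ∈ S r, M :=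
            Finset.sum_le_sum fun r hr => Finset.sum_le_sum fun p hp =>
              (hQ r p (Nat.lt_succ_iff.1 (Finset.mem_range.1 hr)) hp).1
        _ = ∑ r ∈ Finset.range (n + 1), (S r).card * M := by
            simp only [Finset.sum_const, smul_eq_mul]
        _ ≤ ∑ _r ∈ Finset.range (n + 1), q * M :=
            Finset.sum_le_sum fun r hr => Nat.mul_le_mul_right _
              (hS r (Nat.lt_succ_iff.1 (Finset.mem_range.1 hr)))
        _ = _ := by rw [Finset.sum_const, Finset.card_range, smul_eq_mul]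
    refine h2.trans (le_of_eq ?_)
    rw [hq, hM, CT, ← pow_mul, show 14 * n = 2 * n + 12 * n by ring, pow_add]
    ring
  · intro g hg r Z hZ hZG W hWV hWZ hWp
    by_contra hcon
    apply hg
    obtain ⟨base, N, t, hN, ht, hsub⟩ := locus_subset hΦ Z Δ hZ
    obtain ⟨J, hJ, hJd⟩ := exists_J W hWp
    rw [← hJd] at hcon
    have hcon' : ¬ (J.card + n ≤ d + r) := by
      intro h
      apply hcon
      exact_mod_cast h
    have hr : r ≤ n := by
      have hinj : Function.Injective fun l => (Z.surj l).choose := by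
        intro l l' h
        have h1 := (Z.surj l).choose_spec
        have h2 := (Z.surj l').choose_spec
        simp only at h
        rw [h, h2] at h1
        exact (Option.some.inj h1).symm
      simpa using Fintype.card_le_of_injective _ hinj
    have hmem : (Z.cls, base, N, t, J) ∈ S r := by
      simp only [S, Finset.mem_product, Finset.mem_univ, true_and, Fintype.mem_piFinset,
        Finset.mem_filter]
      refine ⟨fun i => Finset.mem_Icc.2 (hN i), fun i => ?_, by omega⟩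
      rcases ht i with h | ⟨h, h'⟩
      · rw [h]
        exact Finset.mem_insert_self _ _
      · rw [h']
        exact Finset.mem_insert_of_mem (hZG i h)
    have h1 := (hQ r _ hr hmem).2 g W hWV (fun x hx => hsub (hWZ x hx)) (indep_of hJ)
    simp only [QQ]
    rw [map_prod]
    refine Finset.prod_eq_zero (Finset.mem_range.2 (Nat.lt_succ_of_le hr)) ?_
    rw [map_prod]
    exact Finset.prod_eq_zero hmem h1

end Pool.Agent.R870.NT
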