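import Pool.Agent.R870.NY.Defs

/-!
# The number of special points of bounded complexity
-/

set_option autoImplicit false

namespace Pool.Agent.R870.NT

open UpperHalfPlane H294ZP Pool.Agent.R870.NY

/-- The number of special points of bounded complexity. -/
theorem special_points (Δ : ℕ) : ∃ G : Finset ℂ, G.card ≤ (2 * Δ + 1) ^ 3 ∧
    ∀ t : ℂ, SpecialPoint Δ t → t ∈ G := by
  classical
  let bx : Finset (ℤ × ℤ × ℤ) := Finset.Icc (-(Δ : ℤ)) Δ ×ˢ Finset.Icc (-(Δ : ℤ)) Δ ×ˢ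
    Finset.Icc (-(Δ : ℤ)) Δ
  let F : ℤ × ℤ × ℤ → ℂ := fun p =>
    if h : ∃ τ : ℍ, (p.1 : ℂ) * (τ : ℂ) ^ 2 + p.2.1 * τ + p.2.2 = 0 then jj h.choose else 0
  refine ⟨bx.image F, ?_, ?_⟩
  · refine Finset.card_image_le.trans ?_
    simp only [bx, Finset.card_product, Int.card_Icc]
    have h1 : ((Δ : ℤ) + 1 - -(Δ : ℤ)).toNat = 2 * Δ + 1 := by omega
    rw [h1]
    exact le_of_eq (by ring)
  · rintro t ⟨τ, a, b, c, ha, haΔ, hbΔ, hcΔ, hq, rfl⟩
    rw [Finset.mem_image]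
    refine ⟨(a, b, c), ?_, ?_⟩
    · simp only [bx, Finset.mem_product, Finset.mem_Icc]
      exact ⟨abs_le.1 haΔ, abs_le.1 hbΔ, abs_le.1 hcΔ⟩
    · have h : ∃ τ : ℍ, (((a, b, c) : ℤ × ℤ × ℤ).1 : ℂ) * (τ : ℂ) ^ 2 +
          ((a, b, c) : ℤ × ℤ × ℤ).2.1 * τ + ((a, b, c) : ℤ × ℤ × ℤ).2.2 = 0 := ⟨τ, hq⟩
      have h1 : F (a, b, c) = jj h.choose := dif_pos h
      rw [h1]
      have h2 : (a : ℂ) * (h.choose : ℂ) ^ 2 + b * h.choose + c = 0 := h.choose_spec
      congr 1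
      obtain ⟨σ, hσ⟩ : ∃ σ, σ = h.choose := ⟨_, rfl⟩
      rw [← hσ] at h2 ⊢
      have ha' : (a : ℂ) ≠ 0 := by exact_mod_cast ha
      have h3 : ((σ : ℂ) - τ) * ((a : ℂ) * ((σ : ℂ) + τ) + b) = 0 := by
        linear_combination h2 - hq
      rcases mul_eq_zero.1 h3 with h4 | h4
      · exact UpperHalfPlane.ext (sub_eq_zero.1 h4)
      · exfalso
        have h5 := congrArg Complex.im h4
        have h6 : (a : ℝ) * (σ.im + τ.im) = 0 := by
          simpa using h5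
        rcases mul_eq_zero.1 h6 with h7 | h7
        · exact ha (by exact_mod_cast h7)
        · have := σ.im_pos
          have := τ.im_pos
          linarith

end Pool.Agent.R870.NT
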